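import Pool.Agent.H59.UV.Stm
import Pool.Prelude.Def_F_f5f3026a

set_option autoImplicit false
open Finset

namespace Pool.Agent.H59.UV

theorem fin_part (hDEC : S_DEC) (hUNI : S_UNI) (hBIG : S_BIG) (hREGA : S_REGA) (hREGC : S_REGC)
    (V : Type) [Fintype V] (G : SimpleGraph V) (C : Finset V)
    (hC : ∀ u v, G.Adj u v → u ∈ C ∨ v ∈ C)
    (hn : (7 * C.card + 6 * Nat.clog 2 (Fintype.card V + 1) + 10) ^ 2 ≤ Fintype.card V) :
    N36365310.UnimodalSeq (N36365310.indepSeq G) := by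
  classical
  obtain ⟨T, N, hTC, h0, hN0, hN, hdec⟩ := hDEC V G C hC
  set n := Fintype.card V with hn'
  set c := C.card with hc
  set l := Nat.clog 2 (n + 1) with hl
  set m := n - c with hm
  have hexp : (6 * l + 7 * c + 8) ^ 2 + (10 * l + 15 * c + 8) + c + 16 ≤ n := by
    have : (6 * l + 7 * c + 8) ^ 2 + (10 * l + 15 * c + 8) + c + 16 ≤ (7 * c + 6 * l + 10) ^ 2 := by
      nlinarith
    omega
  have hsq : 6 * l + 7 * c + 8 ≤ (6 * l + 7 * c + 8) ^ 2 := by nlinarith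
  have hsq2 : 8 * (6 * l + 7 * c + 8) ≤ (6 * l + 7 * c + 8) ^ 2 := by nlinarith
  have hlm : m + 1 ≤ 2 ^ l := by
    have h1 : n + 1 ≤ 2 ^ l := Nat.le_pow_clog (by norm_num) _
    omega
  set D := l + c with hD
  set A := 4 * l + 3 * c + 2 with hA
  have e1 : 6 * c ≤ m := by omega
  have e2 : 8 * D + 4 * c + 8 ≤ m := by omega
  have e3 : (m + 1) * 2 ^ c ≤ 2 ^ D := by
    rw [hD, pow_add]
    exact Nat.mul_le_mul_right _ hlm
  have e4 : (m + 1) ^ 3 * 2 ^ (D + 2 * c + 2) ≤ 2 ^ A := by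
    have h1 : (m + 1) ^ 3 ≤ (2 ^ l) ^ 3 := Nat.pow_le_pow_left hlm 3
    have h2 : 2 ^ A = (2 ^ l) ^ 3 * 2 ^ (D + 2 * c + 2) := by
      rw [← pow_mul, ← pow_add, hA, hD]
      congr 1
      ring
    rw [h2]
    exact Nat.mul_le_mul_right _ h1
  have e5 : (2 * D + A + 2 * c + 6) ^ 2 + A + 6 * (D + c + 1) ≤ m := by
    have h1 : 2 * D + A + 2 * c + 6 = 6 * l + 7 * c + 8 := by omega
    rw [h1]
    omega
  have hiseq : ∀ k, N36365310.indepSeq G k = iseq G k := fun k => rfl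
  have hcard : ∀ S ∈ T, S.card ≤ c := fun S hS => Finset.card_le_card (Finset.mem_powerset.mp (hTC hS))
  obtain ⟨M, hM1, hM2⟩ := hUNI (fun k => iseq G k) ((m - 2 * D) / 2) ((m + 2 * c) / 2)
    (fun k hk => by
      simp only [hdec]
      exact hREGA V C T N m D k hTC h0 hN0 e1 e2 e3 (by omega))
    (fun k hk => by
      simp only [hdec]
      exact Finset.sum_le_sum fun S hS =>
        hBIG m c (N S) S.card k (by omega) (hN S) (hcard S hS) (by omega))
    (fun k hk1 hk2 => by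
      simp only [hdec]
      exact hREGC V C T N m D A k hTC h0 hN0 hN e4 e5 (by omega) (by omega))
  exact ⟨M, fun i hi => by rw [hiseq, hiseq]; exact hM1 i hi,
    fun i hi => by rw [hiseq, hiseq]; exact hM2 i hi⟩

end Pool.Agent.H59.UV
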