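import Pool.Agent.H59.UV.Stm

set_option autoImplicit false
open Finset

namespace H1.UV
open Pool.Agent.H59.UV

lemma bs_step (N b k : ℕ) :
    Bs N b k ≤ Bs N b (k + 1) + (if b ≤ k then (k - b).centralBinom else 0) := by
  unfold Bs
  by_cases hb : b ≤ k
  · rw [if_pos hb, if_pos (by omega), if_pos hb]
    have e : k + 1 - b = (k - b) + 1 := by omega
    rw [e]
    set j := k - b with hj
    by_cases hN : 2 * j + 1 ≤ N
    · have h1 := Nat.choose_succ_right_eq N j
      have h2 : N.choose j ≤ N.choose (j + 1) := by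
        apply Nat.le_of_mul_le_mul_right (c := j + 1) _ (by omega)
        rw [h1]
        exact Nat.mul_le_mul_left _ (by omega)
      omega
    · have h3 : N.choose j ≤ j.centralBinom := by
        rw [Nat.centralBinom_eq_two_mul_choose]
        exact Nat.choose_le_choose j (by omega)
      omega
  · rw [if_neg hb]
    exact Nat.zero_le _

theorem t_REGA (hL : S_LEFT) : S_REGA := by
  intro V _ C T N m D k hT hTe hN h1 h2 h3 h4
  set c := C.card with hc
  have hleft := hL m c D k h1 h2 h3 h4
  set E := ∑ b ∈ Icc 1 k, c.choose b * (k - b).centralBinom with hE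
  have hstep : m.choose k + E ≤ m.choose (k + 1) := by
    have e1 := Nat.choose_succ_right_eq m k
    refine le_of_mul_le_mul_left ?_ (Nat.succ_pos k)
    change (k + 1) * (m.choose k + E) ≤ (k + 1) * m.choose (k + 1)
    rw [mul_add, mul_comm (k + 1) (m.choose (k + 1)), e1]
    have e2 : m - k = (m - 2 * k - 1) + (k + 1) := by omega
    rw [e2, mul_add, mul_comm (m.choose k) (k + 1), mul_comm (m.choose k) (m - 2 * k - 1)]
    omega
  have herr : ∑ S ∈ T.erase ∅, (if S.card ≤ k then (k - S.card).centralBinom else 0) ≤ E := by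
    let g : ℕ → ℕ := fun b => if 1 ≤ b ∧ b ≤ k then (k - b).centralBinom else 0
    have a1 : ∑ S ∈ T.erase ∅, (if S.card ≤ k then (k - S.card).centralBinom else 0) =
        ∑ S ∈ T.erase ∅, g S.card := by
      refine Finset.sum_congr rfl fun S hS => ?_
      have hne : S ≠ ∅ := Finset.ne_of_mem_erase hS
      have hpos : 1 ≤ S.card := Finset.card_pos.mpr (Finset.nonempty_iff_ne_empty.mpr hne)
      by_cases hk : S.card ≤ k
      · simp [g, hk, hpos]
      · simp [g, hk]
    have a2 : ∑ S ∈ T.erase ∅, g S.card ≤ ∑ S ∈ C.powerset, g S.card :=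
      Finset.sum_le_sum_of_subset ((Finset.erase_subset _ _).trans hT)
    have a3 : ∑ S ∈ C.powerset, g S.card = ∑ b ∈ range (c + 1), c.choose b • g b :=
      Finset.sum_powerset_apply_card g
    have a4 : ∑ b ∈ range (c + 1), c.choose b • g b ≤ E := by
      have b1 : ∑ b ∈ range (c + 1), c.choose b • g b =
          ∑ b ∈ (range (c + 1)).filter (fun b => 1 ≤ b ∧ b ≤ k),
            c.choose b * (k - b).centralBinom := by
        rw [Finset.sum_filter]
        refine Finset.sum_congr rfl fun b _ => ?_
        by_cases hb : 1 ≤ b ∧ b ≤ k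
        · simp [g, hb]
        · simp [g, hb]
      rw [b1, hE]
      apply Finset.sum_le_sum_of_subset
      intro b hb
      rw [Finset.mem_filter] at hb
      rw [Finset.mem_Icc]
      exact hb.2
    rw [a1]
    exact (a2.trans a3.le).trans a4
  rw [← Finset.add_sum_erase T (fun S => Bs (N S) S.card k) hTe,
    ← Finset.add_sum_erase T (fun S => Bs (N S) S.card (k + 1)) hTe]
  have f1 : Bs (N ∅) (∅ : Finset V).card k = m.choose k := by simp [Bs, hN]
  have f2 : Bs (N ∅) (∅ : Finset V).card (k + 1) = m.choose (k + 1) := by simp [Bs, hN]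
  have f3 : ∑ S ∈ T.erase ∅, Bs (N S) S.card k ≤
      ∑ S ∈ T.erase ∅, Bs (N S) S.card (k + 1) +
        ∑ S ∈ T.erase ∅, (if S.card ≤ k then (k - S.card).centralBinom else 0) := by
    rw [← Finset.sum_add_distrib]
    exact Finset.sum_le_sum fun S _ => bs_step (N S) S.card k
  simp only [f1, f2]
  omega

end H1.UV
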