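import Mathlib

/-!
Mini crew UV (helper59), MP_24a1b5_co: graphs (in particular trees) with a small vertex cover have a
unimodal independence sequence: `n ≥ K (c + log n) ^ 2`, `c` = size of a vertex cover.
-/

set_option autoImplicit false
open Finset

namespace Pool.Agent.H59.UV

/-- number of independent sets of size `k` -/
noncomputable def iseq {V : Type} [Fintype V] (G : SimpleGraph V) (k : ℕ) : ℕ :=
  {J : Finset V | J.card = k ∧ G.IsIndepSet (J : Set V)}.ncard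

/-- shifted binomial coefficient -/
def Bs (N b k : ℕ) : ℕ := if b ≤ k then N.choose (k - b) else 0

/-- DEC (60 lines). Decomposition by `S = J ∩ C`; `C` a vertex cover. Put
`N S = #{v ∉ C | v has no neighbour in S}`; `N ∅ = n - c`, `N S ≤ n - c`.
(`Finset.card_eq_sum_card_fiberwise`, fibre over `S` in bijection with `powersetCard (k - |S|)`.)
`T` = the independent subsets of `C`. -/
def S_DEC : Prop := ∀ (V : Type) [Fintype V] [DecidableEq V] (G : SimpleGraph V) (C : Finset V),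
  (∀ u v, G.Adj u v → u ∈ C ∨ v ∈ C) →
  ∃ (T : Finset (Finset V)) (N : Finset V → ℕ), T ⊆ C.powerset ∧ ∅ ∈ T ∧
    N ∅ = Fintype.card V - C.card ∧ (∀ S, N S ≤ Fintype.card V - C.card) ∧
    ∀ k, iseq G k = ∑ S ∈ T, Bs (N S) S.card k

/-- UNI (25 lines): `M` = the least `k ≥ K1` with `f (k + 1) ≤ f k`. -/
def S_UNI : Prop := ∀ (f : ℕ → ℕ) (K1 K2 : ℕ), (∀ k, k < K1 → f k ≤ f (k + 1)) →
  (∀ k, K2 ≤ k → f (k + 1) ≤ f k) → (∀ k, K1 ≤ k → k < K2 → f (k + 2) + f k ≤ 2 * f (k + 1)) →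
  ∃ M, (∀ k, k < M → f k ≤ f (k + 1)) ∧ ∀ k, M ≤ k → f (k + 1) ≤ f k

/-- BIG (10 lines): right part. -/
def S_BIG : Prop := ∀ m c N b k : ℕ, 1 ≤ m → N ≤ m → b ≤ c → m + 2 * c ≤ 2 * k + 1 →
  Bs N b (k + 1) ≤ Bs N b k

/-- CNC (40 lines): concavity with slack. With `N = p + q`, `j + 1 = p`:
`(p + 1) (q + 1) (2 C(N,p) - C(N,p+1) - C(N,p-1)) = C(N,p) (N + 2 - (p - q)^2)`
(`Nat.choose_succ_right_eq` twice). -/
def S_CNC : Prop := ∀ N j : ℕ, j + 1 ≤ N →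
  ((j : ℝ) + 2) * ((N : ℝ) - j) * (2 * (N.choose (j + 1) : ℝ) - N.choose (j + 2) - N.choose j) =
    (N.choose (j + 1) : ℝ) * ((N : ℝ) + 2 - ((N : ℝ) - 2 * (j + 1)) ^ 2)

/-- LOW (40 lines): lower bound near the middle: `C(m, m/2) ≤ 2 ^ t * C(m, k)` if `|k - m/2| ≤ t` roughly
(one step: `C(m,i+1) ≤ 2 C(m,i)` if `m - i ≤ 2 (i + 1)`; for `k > m / 2` use the symmetry) and
`2 ^ m ≤ (m + 1) C(m, m/2)` (`Nat.sum_range_choose`, `Nat.choose_le_middle`). -/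
def S_LOW : Prop := ∀ m k t : ℕ, 6 * t ≤ m → m ≤ 2 * k + 2 * t → 2 * k ≤ m + 2 * t →
  2 ^ m ≤ (m + 1) * 2 ^ (t + 1) * m.choose k

/-- CEN (25 lines): induction on `e`: `C(2j+e+1, j) * (j+e+1) = C(2j+e, j) * (2j+e+1)` and
`3 (j+e+1) ≤ 2 (2j+e+1)`. Then monotonicity in the upper index. -/
def S_CEN : Prop := ∀ j e n : ℕ, e ≤ j → 2 * j + e ≤ n →
  3 ^ e * j.centralBinom ≤ 2 ^ e * n.choose j

/-- RAT (20 lines): induction on `b`. -/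
def S_RAT : Prop := ∀ k m b : ℕ, k ≤ m → k.choose b * m ^ b ≤ m.choose b * k ^ b

/-- LEFT (90 lines, may use S_CEN, S_RAT). Real numbers. For `1 ≤ b ≤ k` : `C(m,k) C(k,b) = C(m,b) C(m-b,k-b)`
(`Nat.choose_mul`), so `C(m-b,k-b) ≤ C(m,k) (k/m)^b` (RAT), and by CEN with `j = k - b`
`centralBinom (k-b) ≤ (2/3)^e C(m-b,k-b)` for `e ≤ k - b`, `e ≤ m - 2 k + b`.
Case `4 k < m` : `e = k - b`, the sum is at most
`C(m,k) ∑_b C(c,b) (k/m)^b (2/3)^(k-b) ≤ C(m,k) (2/3)^k (1 + 3k/(2m))^c ≤ C(m,k)`, because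
`(1 + 3k/(2m))^c ≤ exp (3 k c / (2 m)) ≤ exp (k/4) ≤ (3/2)^k`; and `k + 1 ≤ m - 2 k - 1` (if `k = 0` the
sum is empty). Case `m ≤ 4 k` : `e = 2 D`, `(k/m)^b ≤ (1/2)^b`, so the sum is at most
`C(m,k) (2/3)^(2D) (3/2)^c`, and `(k+1) (3/2)^c ≤ 2 ^ D ≤ (9/4)^D`. -/
def S_LEFT : Prop := ∀ m c D k : ℕ, 6 * c ≤ m → 8 * D + 4 * c + 8 ≤ m → (m + 1) * 2 ^ c ≤ 2 ^ D →
  2 * k + 1 + 2 * D ≤ m →
  (k + 1) * ∑ b ∈ Icc 1 k, c.choose b * (k - b).centralBinom ≤ (m - 2 * k - 1) * m.choose k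

/-- REGA (60 lines, may use S_LEFT). Increasing part. `Bs m 0 (k+1) - Bs m 0 k = C(m,k) (m-2k-1)/(k+1)`;
for `S ≠ ∅`, `b = |S|`: `Bs N b k ≤ Bs N b (k + 1) + (if b ≤ k then centralBinom (k - b) else 0)`
(if `N ≥ 2 (k-b) + 1` it increases; otherwise `N ≤ 2 (k-b)` and `C(N,k-b) ≤ C(2(k-b),k-b)`); at most
`C(c,b)` sets `S` have `b` elements. -/
def S_REGA : Prop := ∀ (V : Type) [DecidableEq V] (C : Finset V) (T : Finset (Finset V))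
  (N : Finset V → ℕ) (m D k : ℕ), T ⊆ C.powerset → ∅ ∈ T → N ∅ = m →
  6 * C.card ≤ m → 8 * D + 4 * C.card + 8 ≤ m → (m + 1) * 2 ^ C.card ≤ 2 ^ D →
  2 * k + 1 + 2 * D ≤ m →
  ∑ S ∈ T, Bs (N S) S.card k ≤ ∑ S ∈ T, Bs (N S) S.card (k + 1)

/-- REGC (80 lines, may use S_CNC, S_LOW). The window. For `S ∈ T` with `m - N S ≤ A` the term is concave
(CNC: `|N - 2 (k+1-b)| ≤ 2 D + A + 2 c + 2`, its square is at most `N + 2`); for the others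
`Bs (k+2) + Bs k ≤ 2 ^ (m - A)`; at most `2 ^ c` of them; and for `S = ∅` the slack of CNC is at least
`C(m,k+1) / (m+1)^2 ≥ 2 ^ c * 2 ^ (m - A)` by LOW (`t = D + c + 1`). -/
def S_REGC : Prop := ∀ (V : Type) [DecidableEq V] (C : Finset V) (T : Finset (Finset V))
  (N : Finset V → ℕ) (m D A k : ℕ), T ⊆ C.powerset → ∅ ∈ T → N ∅ = m → (∀ S, N S ≤ m) →
  (m + 1) ^ 3 * 2 ^ (D + 2 * C.card + 2) ≤ 2 ^ A →
  (2 * D + A + 2 * C.card + 6) ^ 2 + A + 6 * (D + C.card + 1) ≤ m →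
  m ≤ 2 * k + 2 * D + 1 → 2 * k + 1 ≤ m + 2 * C.card →
  ∑ S ∈ T, Bs (N S) S.card (k + 2) + ∑ S ∈ T, Bs (N S) S.card k ≤
    2 * ∑ S ∈ T, Bs (N S) S.card (k + 1)

end Pool.Agent.H59.UV
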